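import Mathlib

/-!
Counting cycles of permutations and classes of equivalence relations; the genus inequality.
-/

namespace Pool.Agent.MP_098ecc_co.H16

open Equiv Equiv.Perm

variable {D : Type}

/-- The cycles of a permutation, as an equivalence relation. -/
abbrev orb (π : Perm D) : Setoid D := SameCycle.setoid π

/-- The equivalence relation identifying `a` and `b`. -/
def pr (a b : D) : Setoid D := Relation.EqvGen.setoid fun x y => x = a ∧ y = b

/-- The number of classes. -/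
noncomputable def nc (s : Setoid D) : ℕ := Nat.card (Quotient s)

theorem orb_iff {π : Perm D} {x y : D} : orb π x y ↔ SameCycle π x y := Iff.rfl

theorem orb_le {π : Perm D} {s : Setoid D} : orb π ≤ s ↔ ∀ x, s x (π x) := by
  constructor
  · intro h x
    exact h (show SameCycle π x (π x) from ⟨1, by simp⟩)
  · rintro h x y ⟨i, rfl⟩
    induction i using Int.induction_on with
    | zero => simp
    | succ i ih =>
      have : (π ^ ((i : ℤ) + 1)) x = π ((π ^ (i : ℤ)) x) := by
        rw [add_comm, zpow_add, zpow_one]; rfl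
      rw [this]; exact s.trans' ih (h _)
    | pred i ih =>
      have : π ((π ^ (-(i : ℤ) - 1)) x) = (π ^ (-(i : ℤ))) x := by
        rw [← Perm.mul_apply, ← zpow_one_add]; congr 2; ring
      refine s.trans' ih (s.symm' ?_)
      rw [← this]; exact h _

theorem orb_step (π : Perm D) (x : D) : orb π x (π x) := orb_le.1 le_rfl x

theorem pr_le {a b : D} {s : Setoid D} : pr a b ≤ s ↔ s a b := by
  constructor
  · intro h
    exact h (Relation.EqvGen.rel _ _ ⟨rfl, rfl⟩)
  · intro h
    refine Setoid.eqvGen_le ?_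
    rintro x y ⟨rfl, rfl⟩
    exact h

theorem pr_self (a b : D) : pr a b a b := pr_le.1 le_rfl

theorem lsup {s t : Setoid D} {x y : D} (h : s x y) : (s ⊔ t) x y :=
  (le_sup_left : s ≤ s ⊔ t) h

theorem rsup {s t : Setoid D} {x y : D} (h : t x y) : (s ⊔ t) x y :=
  (le_sup_right : t ≤ s ⊔ t) h

theorem sup_pr_iff (s : Setoid D) (a b x y : D) :
    (s ⊔ pr a b) x y ↔ s x y ∨ (s x a ∧ s b y) ∨ (s x b ∧ s a y) := by
  let t : Setoid D :=
    ⟨fun x y => s x y ∨ (s x a ∧ s b y) ∨ (s x b ∧ s a y),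
      ⟨fun x => Or.inl (s.refl' x), by
        rintro x y (h | ⟨h1, h2⟩ | ⟨h1, h2⟩)
        · exact Or.inl (s.symm' h)
        · exact Or.inr (Or.inr ⟨s.symm' h2, s.symm' h1⟩)
        · exact Or.inr (Or.inl ⟨s.symm' h2, s.symm' h1⟩), by
        rintro x y z (h | ⟨h1, h2⟩ | ⟨h1, h2⟩) (g | ⟨g1, g2⟩ | ⟨g1, g2⟩)
        · exact Or.inl (s.trans' h g)
        · exact Or.inr (Or.inl ⟨s.trans' h g1, g2⟩)
        · exact Or.inr (Or.inr ⟨s.trans' h g1, g2⟩)
        · exact Or.inr (Or.inl ⟨h1, s.trans' h2 g⟩)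
        · exact Or.inr (Or.inl ⟨h1, g2⟩)
        · exact Or.inl (s.trans' h1 g2)
        · exact Or.inr (Or.inr ⟨h1, s.trans' h2 g⟩)
        · exact Or.inl (s.trans' h1 g2)
        · exact Or.inr (Or.inr ⟨h1, g2⟩)⟩⟩
  constructor
  · intro h
    have : s ⊔ pr a b ≤ t :=
      sup_le (fun _ _ h => Or.inl h) (pr_le.2 (Or.inr (Or.inl ⟨s.refl' a, s.refl' b⟩)))
    exact this h
  · rintro (h | ⟨h1, h2⟩ | ⟨h1, h2⟩)
    · exact lsup h
    · exact (s ⊔ pr a b).trans' (lsup h1) ((s ⊔ pr a b).trans' (rsup (pr_self a b)) (lsup h2))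
    · exact (s ⊔ pr a b).trans' (lsup h1)
        ((s ⊔ pr a b).trans' ((s ⊔ pr a b).symm' (rsup (pr_self a b))) (lsup h2))

theorem sup_pr_of {s : Setoid D} {a b : D} (h : s a b) : s ⊔ pr a b = s :=
  sup_eq_left.2 (pr_le.2 h)

theorem nc_sup_pr [Finite D] {s : Setoid D} {a b : D} (h : ¬ s a b) :
    nc (s ⊔ pr a b) + 1 = nc s := by
  classical
  let f : {c : Quotient s // c ≠ Quotient.mk s b} → Quotient (s ⊔ pr a b) :=
    fun c => Setoid.map_of_le (le_sup_left : s ≤ s ⊔ pr a b) c.1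
  have hf : Function.Bijective f := by
    constructor
    · rintro ⟨c, hc⟩ ⟨c', hc'⟩ hh
      induction c using Quotient.inductionOn with | _ x => ?_
      induction c' using Quotient.inductionOn with | _ y => ?_
      have h1 : (s ⊔ pr a b) x y := Quotient.exact hh
      apply Subtype.ext
      rcases (sup_pr_iff s a b x y).1 h1 with g | ⟨_, g⟩ | ⟨g, _⟩
      · exact Quotient.sound g
      · exact (hc' (Quotient.sound (s.symm' g))).elim
      · exact (hc (Quotient.sound g)).elim
    · intro c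
      induction c using Quotient.inductionOn with | _ x => ?_
      by_cases hx : s x b
      · refine ⟨⟨Quotient.mk s a, fun g => h (Quotient.exact g)⟩, ?_⟩
        exact Quotient.sound
          ((sup_pr_iff s a b a x).2 (Or.inr (Or.inl ⟨s.refl' a, s.symm' hx⟩)))
      · exact ⟨⟨Quotient.mk s x, fun g => hx (Quotient.exact g)⟩, rfl⟩
  unfold nc
  rw [← Nat.card_eq_of_bijective f hf, ← Nat.card_congr (Equiv.optionSubtypeNe (Quotient.mk s b)),
    Finite.card_option]

theorem nc_bot : nc (⊥ : Setoid D) = Nat.card D := Nat.card_congr Setoid.quotientBotEquiv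

section swap
variable [DecidableEq D]

theorem orb_mul_swap_le (π : Perm D) (a b : D) : orb (π * swap a b) ≤ orb π ⊔ pr a b := by
  refine orb_le.2 fun x => ?_
  refine (orb π ⊔ pr a b).trans' ?_ (lsup (orb_step π (swap a b x)))
  refine rsup ?_
  by_cases ha : x = a
  · subst ha; simpa using pr_self x b
  by_cases hb : x = b
  · subst hb; simpa using (pr a x).symm' (pr_self a x)
  rw [swap_apply_of_ne_of_ne ha hb]

theorem orb_mul_swap_sup (π : Perm D) (a b : D) :
    orb (π * swap a b) ⊔ pr a b = orb π ⊔ pr a b := by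
  refine le_antisymm (sup_le (orb_mul_swap_le π a b) le_sup_right) (sup_le ?_ le_sup_right)
  have := orb_mul_swap_le (π * swap a b) a b
  rwa [mul_assoc, swap_mul_self, mul_one] at this

theorem same_mul_swap [Finite D] {π : Perm D} {a b : D} (h : ¬ SameCycle π a b) :
    SameCycle (π * swap a b) a b := by
  have key : ∀ k : ℕ, orb (π * swap a b) a ((π ^ (k + 1)) b) ∨ orb (π * swap a b) a b := by
    intro k
    induction k with
    | zero =>
      left
      simpa using orb_step (π * swap a b) a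
    | succ k ih =>
      rcases ih with ih | ih
      · by_cases hb : (π ^ (k + 1)) b = b
        · right; rwa [hb] at ih
        have ha : (π ^ (k + 1)) b ≠ a := fun g =>
          h (SameCycle.symm ⟨((k + 1 : ℕ) : ℤ), by rw [zpow_natCast]; exact g⟩)
        left
        refine (orb _).trans' ih ?_
        have := orb_step (π * swap a b) ((π ^ (k + 1)) b)
        rwa [Perm.mul_apply, swap_apply_of_ne_of_ne ha hb, ← Perm.mul_apply, ← pow_succ'] at this
      · exact Or.inr ih
  have hp : 0 < orderOf π := orderOf_pos π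
  rcases key (orderOf π - 1) with g | g
  · rwa [Nat.sub_add_cancel hp, pow_orderOf_eq_one, Perm.one_apply] at g
  · exact g

theorem not_same_mul_swap [Finite D] {π : Perm D} {a b : D} (hab : a ≠ b) (h : SameCycle π a b) :
    ¬ SameCycle (π * swap a b) a b := by
  classical
  have hex : ∃ k : ℕ, (π ^ k) a = b := by
    obtain ⟨k, _, hk⟩ := h.exists_pow_eq'
    exact ⟨k, hk⟩
  set k := Nat.find hex with hkdef
  have hk : (π ^ k) a = b := Nat.find_spec hex
  have hmin : ∀ j < k, (π ^ j) a ≠ b := fun j hj => Nat.find_min hex hj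
  have hk0 : 0 < k := by
    rcases Nat.eq_zero_or_pos k with g | g
    · rw [g] at hk; exact (hab hk).elim
    · exact g
  have hna : ∀ i, 1 ≤ i → i ≤ k → (π ^ i) a ≠ a := by
    intro i h1 h2 g
    refine hmin (k - i) (by omega) ?_
    rw [← hk]
    conv_rhs => rw [show k = (k - i) + i by omega, pow_add, Perm.mul_apply, g]
  have hT : ∀ n : ℕ, ∃ i, 1 ≤ i ∧ i ≤ k ∧ ((π * swap a b) ^ n) b = (π ^ i) a := by
    intro n
    induction n with
    | zero => exact ⟨k, hk0, le_rfl, by simp [hk]⟩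
    | succ n ih =>
      obtain ⟨i, h1, h2, h3⟩ := ih
      rw [pow_succ', Perm.mul_apply, h3]
      by_cases hik : i = k
      · refine ⟨1, le_rfl, hk0, ?_⟩
        rw [hik, hk]; simp
      · refine ⟨i + 1, by omega, by omega, ?_⟩
        rw [Perm.mul_apply, swap_apply_of_ne_of_ne (hna i h1 h2) (hmin i (by omega)), pow_succ']
        rfl
  intro g
  obtain ⟨n, _, hn⟩ := g.symm.exists_pow_eq'
  obtain ⟨i, h1, h2, h3⟩ := hT n
  exact hna i h1 h2 (h3 ▸ hn)

theorem orb_mul_swap [Finite D] {π : Perm D} {a b : D} (h : ¬ SameCycle π a b) :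
    orb (π * swap a b) = orb π ⊔ pr a b := by
  rw [← orb_mul_swap_sup, sup_pr_of (same_mul_swap h)]

theorem nc_mul_swap [Finite D] {π : Perm D} {a b : D} (h : ¬ SameCycle π a b) :
    nc (orb (π * swap a b)) + 1 = nc (orb π) := by
  rw [orb_mul_swap h, nc_sup_pr h]

theorem nc_mul_swap' [Finite D] {π : Perm D} {a b : D} (hab : a ≠ b) (h : SameCycle π a b) :
    nc (orb (π * swap a b)) = nc (orb π) + 1 := by
  have := nc_mul_swap (not_same_mul_swap hab h)
  rw [mul_assoc, swap_mul_self, mul_one] at this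
  exact this.symm

theorem orb_swap_mul [Finite D] {π : Perm D} {a b : D} (h : ¬ SameCycle π a b) :
    orb (swap a b * π) = orb π ⊔ pr a b := by
  have e : swap a b * π = π * swap (π⁻¹ a) (π⁻¹ b) := by
    rw [mul_swap_eq_swap_mul]; simp
  have h' : ¬ SameCycle π (π⁻¹ a) (π⁻¹ b) := by simpa using h
  rw [e, orb_mul_swap h']
  have h1 : orb π (π⁻¹ a) a := by simpa using orb_step π (π⁻¹ a)
  have h2 : orb π (π⁻¹ b) b := by simpa using orb_step π (π⁻¹ b)
  refine le_antisymm (sup_le le_sup_left (pr_le.2 ?_)) (sup_le le_sup_left (pr_le.2 ?_))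
  · exact (sup_pr_iff _ _ _ _ _).2 (Or.inr (Or.inl ⟨h1, (orb π).symm' h2⟩))
  · exact (sup_pr_iff _ _ _ _ _).2 (Or.inr (Or.inl ⟨(orb π).symm' h1, h2⟩))

end swap

/-- The connected components of the pair `(π, α)`. -/
def cls (π α : Perm D) : Setoid D := orb π ⊔ orb α

/-- Faces plus vertices minus twice the number of components. -/
noncomputable def chi (π α : Perm D) : ℤ :=
  (nc (orb π) : ℤ) + nc (orb (π * α)) - 2 * nc (cls π α)

theorem cls_left (π α : Perm D) (x : D) : cls π α x (π x) := lsup (orb_step π x)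

theorem cls_right (π α : Perm D) (x : D) : cls π α x (α x) := rsup (orb_step α x)

theorem cls_le {π α : Perm D} {s : Setoid D} (h1 : ∀ x, s x (π x)) (h2 : ∀ x, s x (α x)) :
    cls π α ≤ s := sup_le (orb_le.2 h1) (orb_le.2 h2)

theorem cls_inv {π α : Perm D} {U : D → Prop} (h1 : ∀ x, U (π x) ↔ U x) (h2 : ∀ x, U (α x) ↔ U x)
    {x y : D} (h : cls π α x y) : U x ↔ U y := by
  have : cls π α ≤ Setoid.ker U :=
    cls_le (fun x => propext (h1 x).symm) (fun x => propext (h2 x).symm)
  exact iff_of_eq (this h)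

theorem cls_fixed {π α : Perm D} {x y : D} (h1 : π x = x) (h2 : α x = x) (h : cls π α x y) :
    y = x := by
  refine (cls_inv (U := fun z => z = x) (fun z => ?_) (fun z => ?_) h).1 rfl
  · exact ⟨fun g => π.injective (g.trans h1.symm), fun g => g ▸ h1⟩
  · exact ⟨fun g => α.injective (g.trans h2.symm), fun g => g ▸ h2⟩

theorem orb_mul_le_cls (π α : Perm D) : orb (π * α) ≤ cls π α :=
  orb_le.2 fun x => (cls π α).trans' (cls_right π α x) (cls_left π α (α x))

section skip
variable [DecidableEq D] [Finite D]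

theorem cls_skip {π α : Perm D} {x y : D} (h1 : π x = x) (h2 : α x = x) (hxy : y ≠ x) :
    cls (swap x y * π) α = cls π α ⊔ pr x y := by
  have : ¬ SameCycle π x y := fun g => hxy (cls_fixed h1 h2 (lsup g))
  unfold cls
  rw [orb_swap_mul this, sup_right_comm]

theorem chi_skip {π α : Perm D} {x y : D} (h1 : π x = x) (h2 : α x = x) (hxy : y ≠ x) :
    chi (swap x y * π) α = chi π α := by
  have g0 : ¬ cls π α x y := fun g => hxy (cls_fixed h1 h2 g)
  have g1 : ¬ SameCycle π x y := fun g => g0 (lsup g)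
  have g2 : ¬ SameCycle (π * α) x y := fun g => g0 (orb_mul_le_cls π α g)
  have e1 := nc_sup_pr (s := orb π) g1
  have e2 := nc_sup_pr (s := orb (π * α)) g2
  have e3 := nc_sup_pr g0
  unfold chi
  rw [cls_skip h1 h2 hxy, mul_assoc, orb_swap_mul g1, orb_swap_mul g2]
  omega

end skip

section disj

/-- All nontrivial classes lie inside `U`. -/
def Supp (s : Setoid D) (U : D → Prop) : Prop := ∀ x y, s x y → x = y ∨ (U x ∧ U y)

theorem sup_iff_of_supp {s t : Setoid D} {U : D → Prop} (hs : Supp s U) (ht : Supp t fun x => ¬ U x)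
    {x y : D} : (s ⊔ t) x y ↔ s x y ∨ t x y := by
  let u : Setoid D :=
    ⟨fun x y => s x y ∨ t x y, ⟨fun x => Or.inl (s.refl' x),
      fun h => h.imp s.symm' t.symm', by
        rintro x y z (h | h) (g | g)
        · exact Or.inl (s.trans' h g)
        · rcases hs _ _ h with rfl | ⟨_, h2⟩
          · exact Or.inr g
          rcases ht _ _ g with rfl | ⟨g1, _⟩
          · exact Or.inl h
          · exact (g1 h2).elim
        · rcases ht _ _ h with rfl | ⟨_, h2⟩
          · exact Or.inl g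
          rcases hs _ _ g with rfl | ⟨g1, _⟩
          · exact Or.inr h
          · exact (h2 g1).elim
        · exact Or.inr (t.trans' h g)⟩⟩
  constructor
  · intro h
    have : s ⊔ t ≤ u := sup_le (fun _ _ h => Or.inl h) (fun _ _ h => Or.inr h)
    exact this h
  · exact fun h => h.elim lsup rsup

theorem nc_split [Finite D] (s : Setoid D) (U : D → Prop) (hU : ∀ x y, s x y → (U x ↔ U y)) :
    nc s = (Quotient.mk s '' {x | U x}).ncard + (Quotient.mk s '' {x | ¬ U x}).ncard := by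
  rw [← Set.ncard_union_eq, ← Set.image_union]
  · have : {x | U x} ∪ {x | ¬ U x} = Set.univ := by ext x; simp [em]
    rw [this, Set.image_univ, Quotient.mk_surjective.range_eq, Set.ncard_univ]; rfl
  · rw [Set.disjoint_left]
    rintro c ⟨x, hx, rfl⟩ ⟨y, hy, h⟩
    exact hy ((hU y x (Quotient.exact h)).2 hx)

theorem ncard_congr_on (s t : Setoid D) (A : Set D) (h : ∀ x ∈ A, ∀ y ∈ A, s x y ↔ t x y) :
    (Quotient.mk s '' A).ncard = (Quotient.mk t '' A).ncard := by
  refine Set.ncard_congr (fun c hc => Quotient.mk t hc.choose) ?_ ?_ ?_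
  · intro c hc
    exact ⟨_, hc.choose_spec.1, rfl⟩
  · intro c c' hc hc' g
    rw [← hc.choose_spec.2, ← hc'.choose_spec.2]
    exact Quotient.sound ((h _ hc.choose_spec.1 _ hc'.choose_spec.1).2 (Quotient.exact g))
  · rintro c ⟨x, hx, rfl⟩
    have hc : Quotient.mk s x ∈ Quotient.mk s '' A := ⟨x, hx, rfl⟩
    exact ⟨_, hc, Quotient.sound ((h _ hc.choose_spec.1 _ hx).1 (Quotient.exact hc.choose_spec.2))⟩

theorem nc_sup_of_supp [Finite D] {s t : Setoid D} {U : D → Prop} (hs : Supp s U)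
    (ht : Supp t fun x => ¬ U x) : nc (s ⊔ t) + nc (⊥ : Setoid D) = nc s + nc t := by
  have hs' : ∀ x y, s x y → (U x ↔ U y) := fun x y h => by
    rcases hs x y h with rfl | ⟨h1, h2⟩ <;> simp [*]
  have ht' : ∀ x y, t x y → (U x ↔ U y) := fun x y h => by
    rcases ht x y h with rfl | ⟨h1, h2⟩ <;> simp [*]
  rw [nc_split (s ⊔ t) U (fun x y h => ((sup_iff_of_supp hs ht).1 h).elim (hs' x y) (ht' x y)),
    nc_split s U hs', nc_split t U ht', nc_split ⊥ U (fun x y h => by
      have : x = y := h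
      rw [this])]
  have a1 := ncard_congr_on (s ⊔ t) s {x | U x} fun x hx y _ => by
    rw [sup_iff_of_supp hs ht]
    refine ⟨fun g => g.elim id fun g => ?_, Or.inl⟩
    rcases ht x y g with rfl | ⟨g1, _⟩
    · exact s.refl' x
    · exact (g1 hx).elim
  have a2 := ncard_congr_on (s ⊔ t) t {x | ¬ U x} fun x hx y _ => by
    rw [sup_iff_of_supp hs ht]
    refine ⟨fun g => g.elim (fun g => ?_) id, Or.inr⟩
    rcases hs x y g with rfl | ⟨g1, _⟩
    · exact t.refl' x
    · exact (hx g1).elim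
  have a3 := ncard_congr_on ⊥ t {x | U x} fun x hx y _ => by
    refine ⟨fun g => (show x = y from g) ▸ t.refl' x, fun g => ?_⟩
    rcases ht x y g with rfl | ⟨g1, _⟩
    · rfl
    · exact (g1 hx).elim
  have a4 := ncard_congr_on ⊥ s {x | ¬ U x} fun x hx y _ => by
    refine ⟨fun g => (show x = y from g) ▸ s.refl' x, fun g => ?_⟩
    rcases hs x y g with rfl | ⟨g1, _⟩
    · rfl
    · exact (hx g1).elim
  omega

theorem inv_of_fix {π : Perm D} {U : D → Prop} (h : ∀ x, ¬ U x → π x = x) (x : D) :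
    U (π x) ↔ U x := by
  constructor
  · intro g
    by_contra g'
    rw [h x g'] at g; exact g' g
  · intro g
    by_contra g'
    have := π.injective (h _ g')
    rw [this] at g'; exact g' g

theorem supp_cls {π α : Perm D} {U : D → Prop} (h1 : ∀ x, ¬ U x → π x = x)
    (h2 : ∀ x, ¬ U x → α x = x) : Supp (cls π α) U := by
  intro x y h
  by_cases hx : U x
  · exact Or.inr ⟨hx, (cls_inv (inv_of_fix h1) (inv_of_fix h2) h).1 hx⟩
  · exact Or.inl (cls_fixed (h1 x hx) (h2 x hx) h).symm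

theorem supp_orb {π : Perm D} {U : D → Prop} (h1 : ∀ x, ¬ U x → π x = x) : Supp (orb π) U :=
  fun x y h => supp_cls h1 (α := 1) (fun _ _ => rfl) x y (lsup h)

theorem mul_apply_in {π ρ : Perm D} {U : D → Prop} (h2 : ∀ x, ¬ ¬ U x → ρ x = x) {x : D}
    (hx : U x) : (π * ρ) x = π x := by
  rw [Perm.mul_apply, h2 x (not_not.2 hx)]

theorem mul_apply_out {π ρ : Perm D} {U : D → Prop} (h1 : ∀ x, ¬ U x → π x = x)
    (h2 : ∀ x, ¬ ¬ U x → ρ x = x) {x : D} (hx : ¬ U x) : (π * ρ) x = ρ x := by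
  rw [Perm.mul_apply, h1 _ ((inv_of_fix h2 x).2 hx)]

theorem comm_of_fix {π ρ : Perm D} {U : D → Prop} (h1 : ∀ x, ¬ U x → π x = x)
    (h2 : ∀ x, ¬ ¬ U x → ρ x = x) : π * ρ = ρ * π := by
  ext x
  by_cases hx : U x
  · rw [mul_apply_in h2 hx, Perm.mul_apply, h2 _ (not_not.2 ((inv_of_fix h1 x).2 hx))]
  · rw [mul_apply_out h1 h2 hx, Perm.mul_apply, h1 x hx]

theorem orb_mul_of_fix {π ρ : Perm D} {U : D → Prop} (h1 : ∀ x, ¬ U x → π x = x)
    (h2 : ∀ x, ¬ ¬ U x → ρ x = x) : orb (π * ρ) = orb π ⊔ orb ρ := by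
  refine le_antisymm (orb_mul_le_cls π ρ) (sup_le (orb_le.2 fun x => ?_) (orb_le.2 fun x => ?_))
  · by_cases hx : U x
    · rw [← mul_apply_in (π := π) h2 hx]; exact orb_step _ x
    · rw [h1 x hx]
  · by_cases hx : U x
    · rw [h2 x (not_not.2 hx)]
    · rw [← mul_apply_out h1 h2 hx]; exact orb_step _ x

theorem cls_mul_of_fix {π ρ α β : Perm D} {U : D → Prop} (h1 : ∀ x, ¬ U x → π x = x)
    (h2 : ∀ x, ¬ ¬ U x → ρ x = x) (h3 : ∀ x, ¬ U x → α x = x) (h4 : ∀ x, ¬ ¬ U x → β x = x) :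
    cls (π * ρ) (α * β) = cls π α ⊔ cls ρ β := by
  unfold cls
  rw [orb_mul_of_fix h1 h2, orb_mul_of_fix h3 h4, sup_sup_sup_comm]

theorem chi_mul_of_fix [Finite D] {π ρ α β : Perm D} {U : D → Prop} (h1 : ∀ x, ¬ U x → π x = x)
    (h2 : ∀ x, ¬ ¬ U x → ρ x = x) (h3 : ∀ x, ¬ U x → α x = x) (h4 : ∀ x, ¬ ¬ U x → β x = x) :
    chi (π * ρ) (α * β) = chi π α + chi ρ β := by
  have e : π * ρ * (α * β) = (π * α) * (ρ * β) := by
    rw [mul_assoc, ← mul_assoc ρ, ← comm_of_fix h3 h2]; simp only [mul_assoc]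
  have h5 : ∀ x, ¬ U x → (π * α) x = x := fun x hx => by rw [Perm.mul_apply, h3 x hx, h1 x hx]
  have h6 : ∀ x, ¬ ¬ U x → (ρ * β) x = x := fun x hx => by rw [Perm.mul_apply, h4 x hx, h2 x hx]
  have a1 := nc_sup_of_supp (supp_orb h1) (supp_orb h2)
  have a2 := nc_sup_of_supp (supp_orb h5) (supp_orb h6)
  have a3 := nc_sup_of_supp (supp_cls h1 h3) (supp_cls h2 h4)
  unfold chi
  rw [cls_mul_of_fix h1 h2 h3 h4, e, orb_mul_of_fix h1 h2, orb_mul_of_fix h5 h6]
  omega

end disj

end Pool.Agent.MP_098ecc_co.H16
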