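import Pool.Agent.MP_098ecc_co.H16.Cyc

/-!
Cyclic lists as permutations, the edge involution and the genus inequality.
-/

namespace Pool.Agent.MP_098ecc_co.H16

open Equiv Equiv.Perm List

section lists
variable {D : Type} [DecidableEq D]

theorem formPerm_conj (f : Perm D) : ∀ l : List D, f * formPerm l = formPerm (l.map f) * f
  | [] => by simp
  | [x] => by simp
  | x :: y :: l => by
    have := formPerm_conj f (y :: l)
    rw [formPerm_cons_cons, ← mul_assoc, mul_swap_eq_swap_mul, mul_assoc, this]
    simp only [List.map_cons, formPerm_cons_cons, mul_assoc]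

theorem formPerm_tele (x : D) (l2 : List D) :
    ∀ l1 : List D, formPerm (l1 ++ x :: l2) = formPerm (l1 ++ [x]) * formPerm (x :: l2)
  | [] => by simp
  | [y] => by simp
  | y :: z :: l => by
    have := formPerm_tele x l2 (z :: l)
    simp only [List.cons_append, formPerm_cons_cons] at this ⊢
    rw [this, mul_assoc]

theorem formPerm_comm {l1 l2 : List D} (h : (l1 ++ l2).Nodup) :
    formPerm (l1 ++ l2) = formPerm (l2 ++ l1) :=
  formPerm_eq_of_isRotated h (List.isRotated_append)

theorem map_swap_of_notMem {a b : D} {l : List D} (ha : a ∉ l) (hb : b ∉ l) :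
    l.map (swap a b) = l := by
  conv_rhs => rw [← List.map_id l]
  refine List.map_congr_left fun x hx => ?_
  exact swap_apply_of_ne_of_ne (fun g => ha (g ▸ hx)) (fun g => hb (g ▸ hx))

theorem formPerm_key {a b : D} {l1 l2 : List D} (h : (a :: (l1 ++ b :: l2)).Nodup) :
    formPerm (a :: (l1 ++ b :: l2)) * swap a b = formPerm (b :: l1) * formPerm (a :: l2) := by
  have h' := h
  simp only [List.nodup_cons, List.mem_append, List.mem_cons, not_or, List.nodup_append] at h'
  obtain ⟨⟨ha1, hab, ha2⟩, hn1, ⟨hb2, hn2⟩, h12⟩ := h'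
  have hb1 : b ∉ l1 := fun g => h12 b g b (Or.inl rfl) rfl
  have e1 : formPerm (a :: (l1 ++ b :: l2)) = formPerm ((a :: l1) ++ [b]) * formPerm (b :: l2) :=
    formPerm_tele b l2 (a :: l1)
  have e2 : formPerm ((a :: l1) ++ [b]) = swap b a * formPerm (a :: l1) := by
    rw [formPerm_comm]
    · rfl
    · simp only [List.nodup_append, List.nodup_cons, List.mem_cons]
      refine ⟨⟨ha1, hn1⟩, by simp, ?_⟩
      rintro x (rfl | hx) y hy
      · simp at hy; rw [hy]; exact hab
      · simp at hy; rw [hy]; exact fun g => hb1 (g ▸ hx)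
  have e3 : swap b a * formPerm (a :: l1) = formPerm (b :: l1) * swap b a := by
    rw [formPerm_conj, List.map_cons, map_swap_of_notMem hb1 ha1, swap_apply_right]
  have e4 : swap b a * formPerm (b :: l2) = formPerm (a :: l2) * swap b a := by
    rw [formPerm_conj, List.map_cons, map_swap_of_notMem hb2 ha2, swap_apply_left]
  rw [e1, e2, e3, mul_assoc, mul_assoc, ← mul_assoc (swap b a), e4, swap_comm b a, mul_assoc,
    swap_mul_self, mul_one]

theorem formPerm_fix {l : List D} (x : D) (h : ¬ x ∈ l) : formPerm l x = x :=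
  formPerm_apply_of_notMem h

theorem same_of_mem {l : List D} (hl : l.Nodup) {ψ : Perm D} (hψ : ∀ x ∈ l, ψ x = x) {x y : D}
    (hx : x ∈ l) (hy : y ∈ l) : SameCycle (formPerm l * ψ) x y := by
  have h1 : orb (formPerm l) ≤ orb (formPerm l * ψ) := by
    rw [orb_mul_of_fix (U := fun z => z ∈ l) formPerm_fix (fun z hz => hψ z (not_not.1 hz))]
    exact le_sup_left
  refine h1 (show SameCycle (formPerm l) x y from ?_)
  by_cases hn : 2 ≤ l.length
  · exact (isCycle_formPerm hl hn).sameCycle ((formPerm_apply_mem_ne_self_iff _ hl _ hx).mpr hn)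
      ((formPerm_apply_mem_ne_self_iff _ hl _ hy).mpr hn)
  · match l, hx, hy, hn with
    | [a], hx, hy, _ =>
      simp only [List.mem_singleton] at hx hy
      rw [hx, hy]
    | a :: b :: l, _, _, hn => simp at hn

omit [DecidableEq D] in
theorem minimalPeriod_congr {π ρ : Perm D} {U : D → Prop} (hU : ∀ x, U x → U (π x))
    (h : ∀ x, U x → π x = ρ x) {d : D} (hd : U d) :
    Function.minimalPeriod π d = Function.minimalPeriod ρ d := by
  have key : ∀ n : ℕ, π^[n] d = ρ^[n] d ∧ U (π^[n] d) := by
    intro n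
    induction n with
    | zero => exact ⟨rfl, hd⟩
    | succ n ih =>
      rw [Function.iterate_succ_apply', Function.iterate_succ_apply', ← ih.1]
      exact ⟨h _ ih.2, hU _ ih.2⟩
  rw [Function.minimalPeriod_eq_minimalPeriod_iff]
  intro n
  unfold Function.IsPeriodicPt Function.IsFixedPt
  rw [(key n).1]

theorem minimalPeriod_formPerm {l : List D} (hl : l.Nodup) {d : D} (hd : d ∈ l) :
    Function.minimalPeriod (formPerm l) d = l.length := by
  obtain ⟨i, hi, rfl⟩ := List.getElem_of_mem hd
  have key : ∀ n, Function.IsPeriodicPt (formPerm l) n l[i] ↔ l.length ∣ n := by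
    intro n
    unfold Function.IsPeriodicPt Function.IsFixedPt
    rw [iterate_eq_pow, formPerm_pow_apply_getElem l hl n i hi, hl.getElem_inj_iff]
    constructor
    · intro h
      have : (i + n) % l.length = i % l.length := by rw [h, Nat.mod_eq_of_lt hi]
      have h2 : i + n ≡ i + 0 [MOD l.length] := this
      exact (Nat.modEq_zero_iff_dvd.1 (Nat.ModEq.add_left_cancel' i h2))
    · rintro ⟨c, rfl⟩
      rw [Nat.add_mul_mod_self_left, Nat.mod_eq_of_lt hi]
  exact Nat.dvd_antisymm (Function.IsPeriodicPt.minimalPeriod_dvd ((key _).2 dvd_rfl))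
    ((key _).1 (Function.isPeriodicPt_minimalPeriod _ _))

theorem period_in {l : List D} (hl : l.Nodup) {ψ : Perm D} (hψ : ∀ x ∈ l, ψ x = x) {d : D}
    (hd : d ∈ l) : Function.minimalPeriod (formPerm l * ψ : Perm D) d = l.length := by
  rw [← minimalPeriod_formPerm hl hd]
  refine minimalPeriod_congr (U := fun z => z ∈ l) (fun x hx => ?_) (fun x hx => ?_) hd
  · rw [Perm.mul_apply, hψ x hx]; exact formPerm_apply_mem_of_mem hx
  · rw [Perm.mul_apply, hψ x hx]

omit [DecidableEq D] in
theorem period_out {π ρ : Perm D} {U : D → Prop} (h1 : ∀ x, ¬ U x → π x = x)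
    (h2 : ∀ x, ¬ ¬ U x → ρ x = x) {d : D} (hd : ¬ U d) :
    Function.minimalPeriod (π * ρ : Perm D) d = Function.minimalPeriod ρ d := by
  refine minimalPeriod_congr (U := fun z => ¬ U z) (fun x hx => ?_) (fun x hx => ?_) hd
  · rw [mul_apply_out h1 h2 hx]; exact (inv_of_fix h2 x).2 hx
  · exact mul_apply_out h1 h2 hx

theorem exists_face [Fintype D] (ψ : Perm D) (x : D) :
    ∃ (f : List D) (ψ' : Perm D), (x :: f).Nodup ∧ (∀ y ∈ x :: f, ψ' y = y) ∧
      (∀ y ∈ f, SameCycle ψ x y) ∧ ψ = formPerm (x :: f) * ψ' := by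
  by_cases hx : ψ x = x
  · exact ⟨[], ψ, by simp, by simpa using hx, by simp, by simp⟩
  have hs : x ∈ ψ.support := mem_support.2 hx
  have h0 := toList_getElem_zero ψ x hs
  obtain ⟨f, hf⟩ : ∃ f, toList ψ x = x :: f := by
    cases hL : toList ψ x with
    | nil => exact absurd hs (toList_eq_nil_iff.1 hL)
    | cons a f => exact ⟨f, by simp_all⟩
  refine ⟨f, (formPerm (x :: f))⁻¹ * ψ, hf ▸ nodup_toList ψ x, fun y hy => ?_, fun y hy => ?_,
    by simp⟩
  · rw [← hf] at hy ⊢
    rw [Perm.mul_apply, Perm.inv_eq_iff_eq, formPerm_toList, (mem_toList_iff.1 hy).1.cycleOf_apply]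
  · exact (mem_toList_iff.1 (hf ▸ List.mem_cons_of_mem x hy)).1

theorem face_unique {x : D} {f g : List D} {ψ ρ : Perm D} (hf : (x :: f).Nodup)
    (hg : (x :: g).Nodup) (hψ : ∀ y ∈ x :: f, ψ y = y) (hρ : ∀ y ∈ x :: g, ρ y = y)
    (h : formPerm (x :: f) * ψ = formPerm (x :: g) * ρ) : f = g := by
  have hlen : (x :: f).length = (x :: g).length := by
    rw [← period_in hf hψ List.mem_cons_self, h, period_in hg hρ List.mem_cons_self]
  have key : ∀ {l : List D} {τ : Perm D}, (x :: l).Nodup → (∀ y ∈ x :: l, τ y = y) →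
      ∀ n (hn : n < (x :: l).length), ((formPerm (x :: l) * τ) ^ n) x = (x :: l)[n] := by
    intro l τ hl hτ n
    induction n with
    | zero => intro _; rfl
    | succ n ih =>
      intro hn
      rw [pow_succ', Perm.mul_apply, ih (by omega), Perm.mul_apply, hτ _ (List.getElem_mem _),
        formPerm_apply_lt_getElem _ hl n hn]
  have : x :: f = x :: g := by
    refine List.ext_getElem hlen fun n h1 h2 => ?_
    rw [← key hf hψ n h1, h, key hg hρ n h2]
  exact (List.cons.inj this).2

variable [Finite D]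

theorem chi_cons {x : D} {l : List D} {ψ α : Perm D} (hx : x ∉ l) (h1 : ψ x = x) (h2 : α x = x) :
    chi (formPerm (x :: l) * ψ) α = chi (formPerm l * ψ) α := by
  cases l with
  | nil => simp
  | cons y l =>
    rw [formPerm_cons_cons, mul_assoc]
    refine chi_skip ?_ h2 (fun g => hx (g ▸ List.mem_cons_self))
    rw [Perm.mul_apply, h1, formPerm_fix x hx]

theorem reach_cons {x : D} {l : List D} {ψ α : Perm D} (hx : x ∉ l) (h1 : ψ x = x)
    (h2 : α x = x) (L : D → Prop) (hL : ¬ L x) {v : D} (hv : v ≠ x) :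
    (∃ y, (y ∈ x :: l ∨ L y) ∧ cls (formPerm (x :: l) * ψ) α y v) ↔
      ∃ y, (y ∈ l ∨ L y) ∧ cls (formPerm l * ψ) α y v := by
  have h0 : (formPerm l * ψ) x = x := by rw [Perm.mul_apply, h1, formPerm_fix x hx]
  cases l with
  | nil =>
    simp only [List.mem_singleton, List.not_mem_nil, false_or]
    constructor
    · rintro ⟨y, rfl | hy, h⟩
      · exact (hv (cls_fixed (by simpa using h1) h2 h)).elim
      · exact ⟨y, hy, h⟩
    · rintro ⟨y, hy, h⟩
      exact ⟨y, Or.inr hy, h⟩
  | cons z l =>
    have hz : z ≠ x := fun g => hx (g ▸ List.mem_cons_self)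
    rw [formPerm_cons_cons, mul_assoc, cls_skip h0 h2 hz]
    constructor
    · rintro ⟨y, hy, h⟩
      rcases (sup_pr_iff _ _ _ _ _).1 h with g | ⟨_, g⟩ | ⟨_, g⟩
      · refine ⟨y, ?_, g⟩
        rcases hy with hy | hy
        · rcases List.mem_cons.1 hy with rfl | hy
          · exact (hv (cls_fixed h0 h2 g)).elim
          · exact Or.inl hy
        · exact Or.inr hy
      · exact ⟨z, Or.inl List.mem_cons_self, g⟩
      · exact (hv (cls_fixed h0 h2 g)).elim
    · rintro ⟨y, hy, h⟩
      exact ⟨y, hy.imp (List.mem_cons_of_mem x) id, lsup h⟩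

end lists

section edges
variable {E : Type} [DecidableEq E]

/-- The other side of an edge. -/
def fl (d : E × Bool) : E × Bool := (d.1, !d.2)

omit [DecidableEq E] in
@[simp] theorem fl_fl (d : E × Bool) : fl (fl d) = d := by simp [fl]

omit [DecidableEq E] in
@[simp] theorem fl_fst (d : E × Bool) : (fl d).1 = d.1 := rfl

omit [DecidableEq E] in
@[simp] theorem fl_snd (d : E × Bool) : (fl d).2 = !d.2 := rfl

omit [DecidableEq E] in
theorem fl_ne (d : E × Bool) : d ≠ fl d := fun h => by
  have := congrArg Prod.snd h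
  simp at this

omit [DecidableEq E] in
theorem eq_or_fl {d r : E × Bool} (h : d.1 = r.1) : d = r ∨ d = fl r := by
  obtain ⟨a, b⟩ := d
  obtain ⟨c, e⟩ := r
  simp only at h
  subst h
  cases b <;> cases e <;> simp [fl]

/-- The involution exchanging the two sides of each edge of `S`. -/
def al (S : Finset E) : Perm (E × Bool) :=
  Function.Involutive.toPerm (fun d => if d.1 ∈ S then fl d else d) fun d => by
    by_cases h : d.1 ∈ S <;> simp [h]

theorem al_apply (S : Finset E) (d : E × Bool) : al S d = if d.1 ∈ S then fl d else d := rfl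

theorem al_in {S : Finset E} {d : E × Bool} (h : d.1 ∈ S) : al S d = fl d := by
  rw [al_apply, if_pos h]

theorem al_out {S : Finset E} {d : E × Bool} (h : d.1 ∉ S) : al S d = d := by
  rw [al_apply, if_neg h]

theorem al_fst (S : Finset E) (d : E × Bool) : (al S d).1 = d.1 := by
  rw [al_apply]; split_ifs <;> rfl

theorem al_erase {S : Finset E} {r : E × Bool} (h : r.1 ∈ S) :
    al S = swap r (fl r) * al (S.erase r.1) := by
  refine Equiv.ext fun d => ?_
  rw [Perm.mul_apply]
  by_cases hd : d.1 = r.1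
  · rw [al_out (S := S.erase r.1) (by simp [hd]), al_in (hd ▸ h)]
    rcases eq_or_fl hd with rfl | rfl <;> simp
  · have e : al (S.erase r.1) d = al S d := by simp [al_apply, hd]
    rw [e, swap_apply_of_ne_of_ne]
    · intro g; exact hd (by rw [← al_fst S d, g])
    · intro g; exact hd (by rw [← al_fst S d, g]; rfl)

theorem al_union {S T : Finset E} (h : T ⊆ S) : al S = al T * al (S \ T) := by
  refine Equiv.ext fun d => ?_
  rw [Perm.mul_apply]
  by_cases h1 : d.1 ∈ T
  · rw [al_out (S := S \ T) (by simp [h1]), al_in h1, al_in (h h1)]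
  · rw [al_out (S := T) (by rwa [al_fst])]
    simp [al_apply, h1]

theorem cls_erase {S : Finset E} {r : E × Bool} (h : r.1 ∈ S) (π : Perm (E × Bool)) :
    cls π (al S) = cls (π * swap r (fl r)) (al (S.erase r.1)) ⊔ pr r (fl r) := by
  have e : orb (al S) = orb (al (S.erase r.1)) ⊔ pr r (fl r) := by
    refine le_antisymm (orb_le.2 fun d => ?_) (sup_le (orb_le.2 fun d => ?_) (pr_le.2 ?_))
    · by_cases hd : d.1 = r.1
      · rw [al_in (hd ▸ h)]
        rcases eq_or_fl hd with rfl | rfl
        · exact rsup (pr_self _ _)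
        · rw [fl_fl]; exact rsup ((pr _ _).symm' (pr_self _ _))
      · have e : al S d = al (S.erase r.1) d := by simp [al_apply, hd]
        rw [e]; exact lsup (orb_step _ _)
    · by_cases hd : d.1 ∈ S.erase r.1
      · rw [al_in hd, ← al_in (Finset.mem_of_mem_erase hd)]; exact orb_step _ _
      · rw [al_out hd]
    · rw [← al_in h]; exact orb_step _ _
  unfold cls
  rw [e, sup_right_comm, orb_mul_swap_sup, sup_assoc, sup_comm (pr r (fl r))]

variable [Finite E]

theorem chi_erase {S : Finset E} {r : E × Bool} (h : r.1 ∈ S) (π : Perm (E × Bool)) :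
    let π₁ := π * swap r (fl r)
    (SameCycle π₁ r (fl r) → chi π (al S) = chi π₁ (al (S.erase r.1)) + 1) ∧
    (¬ SameCycle π₁ r (fl r) → cls π₁ (al (S.erase r.1)) r (fl r) →
      chi π (al S) = chi π₁ (al (S.erase r.1)) - 1) ∧
    (¬ cls π₁ (al (S.erase r.1)) r (fl r) → chi π (al S) = chi π₁ (al (S.erase r.1)) + 1) := by
  intro π₁
  have e0 : π = π₁ * swap r (fl r) := by rw [mul_assoc, swap_mul_self, mul_one]
  have e1 : π * al S = π₁ * al (S.erase r.1) := by rw [al_erase h, mul_assoc]
  have e2 : cls π (al S) = cls π₁ (al (S.erase r.1)) ⊔ pr r (fl r) := cls_erase h π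
  unfold chi
  rw [e1, e2]
  refine ⟨fun g => ?_, fun g g' => ?_, fun g => ?_⟩
  · rw [sup_pr_of (s := cls π₁ (al (S.erase r.1))) (lsup g)]
    have := nc_mul_swap' (fl_ne r) g
    rw [← e0] at this
    omega
  · rw [sup_pr_of g']
    have := nc_mul_swap g
    rw [← e0] at this
    omega
  · have := nc_mul_swap (π := π₁) (fun g' => g (lsup g'))
    rw [← e0] at this
    have := nc_sup_pr g
    omega

theorem chi_le (S : Finset E) : ∀ π : Perm (E × Bool), chi π (al S) ≤ S.card := by
  induction S using Finset.induction_on with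
  | empty =>
    intro π
    have e : al (∅ : Finset E) = 1 := Equiv.ext fun d => al_out (by simp)
    have : cls π 1 = orb π := sup_eq_left.2 (orb_le.2 fun x => (orb π).refl' x)
    unfold chi
    rw [e, this, mul_one]; simp; omega
  | insert e S he ih =>
    intro π
    have h : ((e, false) : E × Bool).1 ∈ insert e S := Finset.mem_insert_self e S
    obtain ⟨h1, h2, h3⟩ := chi_erase h π
    have e1 : (insert e S).erase ((e, false) : E × Bool).1 = S := Finset.erase_insert he
    rw [e1] at h1 h2 h3
    have := ih (π * swap (e, false) (fl (e, false)))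
    rw [Finset.card_insert_of_notMem he]
    by_cases g : SameCycle (π * swap (e, false) (fl (e, false))) (e, false) (fl (e, false))
    · have := h1 g; push_cast; omega
    by_cases g' : cls (π * swap (e, false) (fl (e, false))) (al S) (e, false) (fl (e, false))
    · have := h2 g g'; push_cast; omega
    · have := h3 g'; push_cast; omega

end edges

end Pool.Agent.MP_098ecc_co.H16
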